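import Mathlib
import Pool.Agent.H.MP_ded1c1b5_al.A

set_option autoImplicit false

namespace Pool.Agent.Results.MP_ded1c1b5_al.Counter

open Equiv Pool.Agent.H.MP_ded1c1b5_al

theorem result :
    (∀ v w : List Bool, v.length = w.length → ∃ g : AutT, g.1 v = w) ∧ (∀ m, (ristL m).FiniteIndex) ∧
    (∃ V : Subgroup AutT, IsOpen (V : Set AutT) ∧ Nonempty (V ≃ₜ* (Fin 3 → AutT))) ∧
    ∀ (m : ℕ) (K : Type) [Group K], IsEmpty (ristL m ≃* (Fin 3 → K)) := by
  refine ⟨fun v w h => (trans v [] w h).imp fun _ h => h.2, fun m => ?_, ?_, fun m K _ => ⟨fun e => ?_⟩⟩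
  · have : Finite {v : List Bool // v.length = m} := (List.finite_length_eq Bool m).to_subtype
    let ρ : AutT →* Perm {v : List Bool // v.length = m} :=
      MonoidHom.mk' (fun g => g.1.subtypePerm fun w => by rw [g.2.1]) fun _ _ => rfl
    exact Subgroup.finiteIndex_of_le (H := ρ.ker) fun g h => (mem_ristL m g).2 fun w hw =>
      congrArg Subtype.val (Equiv.congr_fun (MonoidHom.mem_ker.1 h) ⟨w, hw⟩)
  · let _ : TopologicalSpace (List Bool) := ⊥
    have : DiscreteTopology (List Bool) := ⟨rfl⟩
    have ev : ∀ w, Continuous fun g : AutT => g.1 w := fun w => (continuous_apply w).comp continuous_induced_dom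
    let p : Fin 3 → List Bool := ![[false], [true, false], [true, true]]
    let V : Subgroup AutT := MulAction.stabilizer AutT [true, false]
    have fx : ∀ (g : V) i, g.1.1 (p i) = p i := fun g i => by
      have h2 : g.1.1 [true, false] = [true, false] := g.2
      have h1 := fix_pre g.1 (v := [true]) (by simp) h2
      have k : ∀ v w : List Bool, g.1.1 v = v → v ≠ w → g.1.1 w ≠ v := fun v w a b c => b (g.1.1.injective (a.trans c.symm))
      fin_cases i
      · obtain ⟨x, hx⟩ := List.length_eq_one_iff.1 (g.1.2.1 [false])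
        cases x
        · exact hx
        · exact absurd hx (k _ _ h1 (by simp))
      · exact h2
      · obtain ⟨z, hz⟩ := h1 ▸ (g.1.2.2 [true] [true, true]).1 (by simp)
        obtain ⟨x, rfl⟩ := List.length_eq_one_iff.1 (show z.length = 1 by simpa [g.1.2.1] using congrArg List.length hz)
        cases x
        · exact absurd hz.symm (k _ _ h2 (by simp))
        · exact hz.symm
    choose s hs using fun (g : V) i => sect g.1 _ (fx g i)
    let F : (Fin 3 → AutT) → AutT := fun f => ins (p 0) (f 0) * ins (p 1) (f 1) * ins (p 2) (f 2)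
    have F1 : ∀ f i u, (F f).1 (p i ++ u) = p i ++ (f i).1 u := fun f i u => by
      change (ins _ _).1 ((ins _ _).1 ((ins _ _).1 _)) = _
      fin_cases i
      · rw [ins_rist _ (f 2) _ (by simp [p]), ins_rist _ (f 1) _ (by simp [p])]; exact ins_app _ _ _
      · rw [ins_rist _ (f 2) _ (by simp [p])]; exact (congrArg _ (ins_app _ _ _)).trans (ins_rist _ _ _ (by simp [p]))
      · erw [ins_app, ins_rist _ (f 1) _ (by simp [p]), ins_rist _ (f 0) _ (by simp [p])]; rfl
    have nil : ∀ g : AutT, g.1 [] = [] := fun g => List.length_eq_zero_iff.1 (g.2.1 [])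
    have FV : ∀ f, F f ∈ V := fun f => (F1 f 1 []).trans (by rw [nil]; rfl)
    have cs : ∀ w : List Bool, (∃ i u, w = p i ++ u) ∨ ∀ g : V, g.1.1 w = w := by
      rintro (_ | ⟨_ | _, u⟩)
      · exact Or.inr fun g => nil _
      · exact Or.inl ⟨0, u, rfl⟩
      · rcases u with _ | ⟨_ | _, u⟩
        · exact Or.inr fun g => fix_pre g.1 (v := [true]) (by simp [p]) (fx g 1)
        · exact Or.inl ⟨1, u, rfl⟩
        · exact Or.inl ⟨2, u, rfl⟩
    refine ⟨V, (isOpen_discrete {[true, false]}).preimage (ev [true, false]), ⟨⟨⟨⟨s, fun f => ⟨F f, FV f⟩, fun g => ?_, fun f => ?_⟩,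
      fun g h => ?_⟩, ?_, ?_⟩⟩⟩
    · refine Subtype.ext (Subtype.ext (Equiv.ext fun w => ?_))
      obtain ⟨i, u, rfl⟩ | h := cs w
      · exact (F1 _ _ _).trans (hs _ _ _).symm
      · rw [h, h]
    · exact funext fun i => Subtype.ext (Equiv.ext fun u => List.append_cancel_left ((hs _ i u).symm.trans (F1 f i u)))
    · refine funext fun i => Subtype.ext (Equiv.ext fun u => List.append_cancel_left (as := p i) ?_)
      change p i ++ (s (g * h) i).1 u = p i ++ (s g i).1 ((s h i).1 u)
      rw [← hs, ← hs, ← hs]
      rfl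
    · refine continuous_pi fun i => continuous_induced_rng.2 (continuous_pi fun u => ?_)
      refine ((continuous_of_discreteTopology (f := List.drop (p i).length)).comp ((ev (p i ++ u)).comp continuous_subtype_val)).congr fun g => ?_
      simp [hs]
    · refine continuous_induced_rng.2 (continuous_induced_rng.2 (continuous_pi fun w => ?_))
      obtain ⟨i, u, rfl⟩ | h := cs w
      · exact ((continuous_of_discreteTopology (f := (p i ++ ·))).comp ((ev u).comp (continuous_apply i))).congr fun f => (F1 f i u).symm
      · exact continuous_const.congr fun f => (h ⟨F f, FV f⟩).symm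
  · have : Finite {v : List Bool // v.length = m} := (List.finite_length_eq Bool m).to_subtype
    have hc : Nat.card {v : List Bool // v.length = m} = 2 ^ m := by
      change Nat.card (List.Vector Bool m) = _
      simp [card_vector]
    obtain ⟨c, h⟩ := ((fam1 m).equiv e).of_pi
    have a := fun j => fam2 m ((h j).pi.equiv e.symm)
    have b : ∑ j, Nat.card {i // c i = j} = 2 ^ m := by
      rw [← hc, ← Nat.card_congr (Equiv.sigmaFiberEquiv c), Nat.card_sigma]
    simp only [Nat.card_prod, hc, Nat.card_eq_fintype_card (α := Fin 3), Fintype.card_fin] at a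
    rw [Fin.sum_univ_three] at b
    have := a 0
    have := a 1
    have := a 2
    have : 3 ∣ 2 ^ m := by omega
    exact absurd (Nat.Prime.dvd_of_dvd_pow Nat.prime_three this) (by norm_num)

end Pool.Agent.Results.MP_ded1c1b5_al.Counter
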